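import Mathlib
import Pool.Agent.W459.IW.Ptw

/-! Project IW2: the sharp pointwise inequality for all `p ≥ 2` (kernel weight `lam ≤ 1/2`). -/

set_option autoImplicit false

open Set

namespace Pool.Agent.W802.IW2

open Pool.Agent.W459.IW.Ptw

/-- the homogeneous function with weight `lam` -/
noncomputable def Wl (lam p x y : ℝ) : ℝ :=
  ((p - 1) * x - y) * (x + y) ^ (p - 1) + lam * (p - 2) * max (x - y) 0 ^ p

/-- the function on the segment `x + y = 1` -/
noncomputable def g0 (p t : ℝ) : ℝ :=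
  (p - 1) ^ p * ((1 + t) / 2) ^ p - ((1 - t) / 2) ^ p - cp p * ((p - 2 + p * t) / 2)
    - (p - 2) * cp p / 2 * t ^ 2

/-- its derivative -/
noncomputable def g1 (p t : ℝ) : ℝ :=
  p / 2 * ((p - 1) ^ p * ((1 + t) / 2) ^ (p - 1) + ((1 - t) / 2) ^ (p - 1) - cp p)
    - (p - 2) * cp p * t

theorem g0_deriv {p t : ℝ} (hp : 2 ≤ p) : HasDerivAt (g0 p) (g1 p t) t := by
  have h1 : HasDerivAt (fun t : ℝ => ((1 + t) / 2) ^ p) (1 / 2 * p * ((1 + t) / 2) ^ (p - 1)) t := by
    have h : HasDerivAt (fun t : ℝ => (1 + t) / 2) (1 / 2) t :=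
      ((hasDerivAt_id t).const_add 1).div_const 2
    exact h.rpow_const (p := p) (Or.inr (by linarith))
  have h2 : HasDerivAt (fun t : ℝ => ((1 - t) / 2) ^ p)
      (-1 / 2 * p * ((1 - t) / 2) ^ (p - 1)) t := by
    have h : HasDerivAt (fun t : ℝ => (1 - t) / 2) (-1 / 2) t :=
      ((hasDerivAt_id t).const_sub 1).div_const 2
    exact h.rpow_const (p := p) (Or.inr (by linarith))
  have h3 : HasDerivAt (fun t : ℝ => (p - 2 + p * t) / 2) (p / 2) t := by
    have := (((hasDerivAt_id t).const_mul p).const_add (p - 2)).div_const 2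
    simpa using this
  have h4 : HasDerivAt (fun t : ℝ => t ^ 2) (2 * t) t := by
    simpa using hasDerivAt_pow 2 t
  refine ((((h1.const_mul ((p - 1) ^ p)).sub h2).sub (h3.const_mul (cp p))).sub
    (h4.const_mul ((p - 2) * cp p / 2))).congr_deriv ?_
  unfold g1
  ring

theorem g1_deriv {p t : ℝ} (hp : 2 ≤ p) : HasDerivAt (g1 p)
    (p / 2 * ((p - 1) ^ p * (1 / 2 * (p - 1) * ((1 + t) / 2) ^ (p - 2))
      + (-1 / 2 * (p - 1) * ((1 - t) / 2) ^ (p - 2))) - (p - 2) * cp p) t := by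
  have h1 : HasDerivAt (fun t : ℝ => ((1 + t) / 2) ^ (p - 1))
      (1 / 2 * (p - 1) * ((1 + t) / 2) ^ (p - 2)) t := by
    have h : HasDerivAt (fun t : ℝ => (1 + t) / 2) (1 / 2) t :=
      ((hasDerivAt_id t).const_add 1).div_const 2
    have := h.rpow_const (p := p - 1) (Or.inr (by linarith))
    rwa [show p - 1 - 1 = p - 2 by ring] at this
  have h2 : HasDerivAt (fun t : ℝ => ((1 - t) / 2) ^ (p - 1))
      (-1 / 2 * (p - 1) * ((1 - t) / 2) ^ (p - 2)) t := by
    have h : HasDerivAt (fun t : ℝ => (1 - t) / 2) (-1 / 2) t :=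
      ((hasDerivAt_id t).const_sub 1).div_const 2
    have := h.rpow_const (p := p - 1) (Or.inr (by linarith))
    rwa [show p - 1 - 1 = p - 2 by ring] at this
  have h4 : HasDerivAt (fun t : ℝ => (p - 2) * cp p * t) ((p - 2) * cp p) t := by
    simpa using (hasDerivAt_id t).const_mul ((p - 2) * cp p)
  exact ((((h1.const_mul ((p - 1) ^ p)).add h2).sub_const (cp p)).const_mul (p / 2)).sub h4

theorem bern {p : ℝ} (hp : 2 ≤ p) : 1 + p * (p - 2) ≤ (p - 1) ^ p := by
  have := one_add_mul_self_le_rpow_one_add (show -1 ≤ p - 2 by linarith) (show 1 ≤ p by linarith)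
  rwa [show 1 + (p - 2) = p - 1 by ring] at this

theorem two_rpow {p : ℝ} (hp : 2 ≤ p) (hp3 : p ≤ 3) : (2 : ℝ) ^ (p - 2) ≤ p - 1 := by
  have := rpow_one_add_le_one_add_mul_self (s := (1 : ℝ)) (by norm_num) (p := p - 2)
    (by linarith) (by linarith)
  rw [show (1 : ℝ) + 1 = 2 by norm_num] at this
  linarith

theorem g1_pos {p t : ℝ} (hp : 2 ≤ p) (hp3 : p ≤ 3) (ht0 : 0 < t) (ht1 : t < 1) :
    0 ≤ p / 2 * ((p - 1) ^ p * (1 / 2 * (p - 1) * ((1 + t) / 2) ^ (p - 2))
      + (-1 / 2 * (p - 1) * ((1 - t) / 2) ^ (p - 2))) - (p - 2) * cp p := by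
  have e1 : (1 / 2 : ℝ) ^ (p - 2) ≤ ((1 + t) / 2) ^ (p - 2) :=
    Real.rpow_le_rpow (by norm_num) (by linarith) (by linarith)
  have e2 : ((1 - t) / 2) ^ (p - 2) ≤ (1 / 2 : ℝ) ^ (p - 2) :=
    Real.rpow_le_rpow (by linarith) (by linarith) (by linarith)
  have e3 := bern hp
  have e4 := cp_le hp hp3
  have e5 := two_rpow hp hp3
  have e6 : (1 / 2 : ℝ) ^ (p - 2) * 2 ^ (p - 2) = 1 := by
    rw [← Real.mul_rpow (by norm_num) (by norm_num)]
    norm_num
  have e7 : 0 < (1 / 2 : ℝ) ^ (p - 2) := Real.rpow_pos_of_pos (by norm_num) _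
  set H := (1 / 2 : ℝ) ^ (p - 2) with hH
  -- `H ≥ 1/(p-1)`
  have e8 : 1 ≤ H * (p - 1) := e6.symm.le.trans (mul_le_mul_of_nonneg_left e5 e7.le)
  have hM : 0 ≤ (p - 1) ^ p := Real.rpow_nonneg (by linarith) _
  have k1 : p * (p - 2) * H ≤ (p - 1) ^ p * ((1 + t) / 2) ^ (p - 2) - ((1 - t) / 2) ^ (p - 2) := by
    have : ((p - 1) ^ p) * H ≤ (p - 1) ^ p * ((1 + t) / 2) ^ (p - 2) :=
      mul_le_mul_of_nonneg_left e1 hM
    nlinarith
  have k2 : (p - 2) * cp p ≤ (p - 2) * (2 * (p - 1) / p) :=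
    mul_le_mul_of_nonneg_left e4 (by linarith)
  have k3 : (p - 2) * (2 * (p - 1) / p) ≤ p * (p - 1) / 4 * (p * (p - 2) * H) := by
    have hp0 : 0 < p := by linarith
    rw [show (p - 2) * (2 * (p - 1) / p) = (2 * ((p - 2) * (p - 1))) / p by ring,
      div_le_iff₀ hp0]
    have k4 : p ^ 3 * H ≥ 8 := by
      have j1 : 0 ≤ p ^ 2 + 2 * p - 4 := by nlinarith
      have j2 : 0 ≤ (p - 2) * (p ^ 2 + 2 * p - 4) := mul_nonneg (by linarith) j1
      have j3 : 8 * (p - 1) ≤ p ^ 3 := by nlinarith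
      have j4 := mul_le_mul_of_nonneg_right j3 e7.le
      nlinarith
    have k5 : 0 ≤ (p - 2) * (p - 1) := mul_nonneg (by linarith) (by linarith)
    have k7 := mul_le_mul_of_nonneg_right k4.le k5
    have k8 : p * (p - 1) / 4 * (p * (p - 2) * H) * p = (p ^ 3 * H) * ((p - 2) * (p - 1)) / 4 := by
      ring
    rw [k8]
    linarith
  have k6 : p * (p - 1) / 4 * (p * (p - 2) * H) ≤ p * (p - 1) / 4 *
      ((p - 1) ^ p * ((1 + t) / 2) ^ (p - 2) - ((1 - t) / 2) ^ (p - 2)) :=
    mul_le_mul_of_nonneg_left k1 (by nlinarith)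
  have k9 : p / 2 * ((p - 1) ^ p * (1 / 2 * (p - 1) * ((1 + t) / 2) ^ (p - 2))
      + (-1 / 2 * (p - 1) * ((1 - t) / 2) ^ (p - 2))) = p * (p - 1) / 4 *
      ((p - 1) ^ p * ((1 + t) / 2) ^ (p - 2) - ((1 - t) / 2) ^ (p - 2)) := by
    ring
  rw [k9]
  linarith

theorem half_mul {p : ℝ} : (1 / 2 : ℝ) ^ p * 2 ^ p = 1 := by
  rw [← Real.mul_rpow (by norm_num) (by norm_num)]
  norm_num

theorem g1_zero {p : ℝ} (hp : 2 ≤ p) : 0 ≤ g1 p 0 := by
  have h1 := BB_nonneg hp (zero_le_one)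
  have h2 := key_le hp zero_le_one (show (1 : ℝ) ≤ p - 1 by linarith)
  unfold BB at h1
  rw [Real.one_rpow] at h1 h2
  unfold g1
  rw [add_zero, sub_zero, mul_zero, sub_zero]
  apply mul_nonneg (by linarith)
  have e1 : (1 + 1 : ℝ) ^ (p - 1) = 2 ^ (p - 1) := by norm_num
  have e2 : (1 + 1 : ℝ) ^ (p - 2) * 2 = 2 ^ (p - 1) := by
    rw [show (1 + 1 : ℝ) = 2 by norm_num, ← Real.rpow_add_one (by norm_num)]
    congr 1
    ring
  have e3 : (0 : ℝ) < (1 / 2) ^ (p - 1) := Real.rpow_pos_of_pos (by norm_num) _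
  have e4 := half_mul (p := p - 1)
  set T := (2 : ℝ) ^ (p - 1)
  set H := (1 / 2 : ℝ) ^ (p - 1)
  rw [e1] at h1
  have h3 : cp p * T ≤ (p - 1) ^ p + 1 := by
    have : cp p * ((3 - p) * T) ≤ 2 := by
      rw [← e2]
      nlinarith
    nlinarith
  have h4 := mul_le_mul_of_nonneg_right h3 e3.le
  have h5 : cp p * T * H = cp p := by rw [mul_assoc, mul_comm T H, e4, mul_one]
  linarith

theorem g0_zero {p : ℝ} (hp : 2 ≤ p) : 0 ≤ g0 p 0 := by
  have h1 := BB_nonneg hp (zero_le_one)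
  unfold BB at h1
  rw [Real.one_rpow] at h1
  unfold g0
  have e3 : (0 : ℝ) < (1 / 2) ^ p := Real.rpow_pos_of_pos (by norm_num) _
  have e4 := half_mul (p := p)
  have e5 : (1 + 1 : ℝ) ^ (p - 1) * 2 = 2 ^ p := by
    rw [show (1 + 1 : ℝ) = 2 by norm_num, ← Real.rpow_add_one (by norm_num)]
    congr 1
    ring
  have e6 : (1 + 1 : ℝ) ^ (p - 1) = 2 ^ p / 2 := by
    rw [eq_div_iff (by norm_num), e5]
  rw [e6] at h1
  set H := (1 / 2 : ℝ) ^ p
  set T := (2 : ℝ) ^ p
  rw [add_zero, sub_zero, mul_zero, add_zero, zero_pow (by norm_num), mul_zero, sub_zero]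
  have h2 := mul_nonneg h1 e3.le
  have : ((p - 1) ^ p - 1 - cp p * ((p - 1 - 1) * (T / 2))) * H
      = (p - 1) ^ p * H - H - cp p * ((p - 2) / 2) * (H * T) := by ring
  rw [this, e4] at h2
  linarith

theorem g0_nonneg {p t : ℝ} (hp : 2 ≤ p) (hp3 : p ≤ 3) (ht0 : 0 ≤ t) (ht1 : t ≤ 1) :
    0 ≤ g0 p t := by
  have hmono1 : MonotoneOn (g1 p) (Icc 0 1) := by
    apply monotoneOn_of_deriv_nonneg (convex_Icc _ _)
    · exact fun x _ => (g1_deriv hp).continuousAt.continuousWithinAt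
    · exact fun x _ => (g1_deriv hp).differentiableAt.differentiableWithinAt
    · rw [interior_Icc]
      intro x hx
      rw [(g1_deriv hp).deriv]
      exact g1_pos hp hp3 hx.1 hx.2
  have hmono : MonotoneOn (g0 p) (Icc 0 1) := by
    apply monotoneOn_of_deriv_nonneg (convex_Icc _ _)
    · exact fun x _ => (g0_deriv hp).continuousAt.continuousWithinAt
    · exact fun x _ => (g0_deriv hp).differentiableAt.differentiableWithinAt
    · rw [interior_Icc]
      intro x hx
      rw [(g0_deriv hp).deriv]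
      exact (g1_zero hp).trans (hmono1 ⟨le_rfl, zero_le_one⟩ ⟨hx.1.le, hx.2.le⟩ hx.1.le)
  exact (g0_zero hp).trans (hmono ⟨le_rfl, zero_le_one⟩ ⟨ht0, ht1⟩ ht0)

open Pool.Agent.W488.IW in
theorem Wl_le {lam p x y : ℝ} (hl : lam ≤ 1) (hp : 2 ≤ p) : Wl lam p x y ≤ Wp p x y := by
  unfold Wl Wp
  have h1 : 0 ≤ max (x - y) 0 ^ p := Real.rpow_nonneg (le_max_right _ _) _
  have h2 : lam * (p - 2) * max (x - y) 0 ^ p ≤ (p - 2) * max (x - y) 0 ^ p := by
    apply mul_le_mul_of_nonneg_right _ h1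
    nlinarith
  linarith

/-- **The sharp pointwise inequality** for all `p ≥ 2`. -/
theorem ptw {lam : ℝ} (hl : lam ≤ 1 / 2) (p x y : ℝ) (hp : 2 ≤ p) (hx : 0 ≤ x) (hy : 0 ≤ y) :
    p * (1 - 1 / p) ^ (p - 1) * Wl lam p x y ≤ (p - 1) ^ p * x ^ p - y ^ p := by
  rcases le_total 3 p with hp3 | hp3
  · refine le_trans ?_ (main3 p x y hp3 hx hy)
    exact mul_le_mul_of_nonneg_left (Wl_le (by linarith) hp) (cp_pos hp).le
  show cp p * Wl lam p x y ≤ (p - 1) ^ p * x ^ p - y ^ p
  have hcp := cp_pos hp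
  have hp0 : 0 < p := by linarith
  rcases lt_or_ge y x with hyx | hyx
  · -- the main case
    have hx0 : 0 < x := lt_of_le_of_lt hy hyx
    set s := x + y with hs
    have hs0 : 0 < s := by positivity
    set t := (x - y) / s with ht
    have ht0 : 0 ≤ t := div_nonneg (by linarith) hs0.le
    have ht1 : t ≤ 1 := by
      rw [ht, div_le_one hs0]
      linarith
    have ex : x = s * ((1 + t) / 2) := by
      rw [ht]
      field_simp
      rw [hs]
      ring
    have ey : y = s * ((1 - t) / 2) := by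
      rw [ht]
      field_simp
      rw [hs]
      ring
    have exy : x - y = s * t := by
      rw [ht]
      field_simp
    have h0 := g0_nonneg hp hp3 ht0 ht1
    have ht2 : t ^ p ≤ t ^ 2 := by
      rcases ht0.lt_or_eq with h | h
      · rw [← Real.rpow_two]
        exact Real.rpow_le_rpow_of_exponent_ge h ht1 hp
      · rw [← h, Real.zero_rpow hp0.ne']
        norm_num
    have htp : 0 ≤ t ^ p := Real.rpow_nonneg ht0 _
    have key : cp p * ((p - 2 + p * t) / 2 + lam * (p - 2) * t ^ p) ≤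
        (p - 1) ^ p * ((1 + t) / 2) ^ p - ((1 - t) / 2) ^ p := by
      unfold g0 at h0
      have : lam * (p - 2) * t ^ p ≤ 1 / 2 * (p - 2) * t ^ 2 := by
        have h1 : lam * ((p - 2) * t ^ p) ≤ 1 / 2 * ((p - 2) * t ^ p) :=
          mul_le_mul_of_nonneg_right hl (mul_nonneg (by linarith) htp)
        have h2 : (p - 2) * t ^ p ≤ (p - 2) * t ^ 2 :=
          mul_le_mul_of_nonneg_left ht2 (by linarith)
        linarith
      have h3 := mul_le_mul_of_nonneg_left this hcp.le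
      nlinarith
    have eW : Wl lam p x y = s ^ p * ((p - 2 + p * t) / 2 + lam * (p - 2) * t ^ p) := by
      unfold Wl
      rw [max_eq_left (by linarith), exy, Real.mul_rpow hs0.le ht0]
      have e3 : s ^ p = s ^ (p - 1) * s := by
        rw [← Real.rpow_add_one hs0.ne']
        congr 1
        ring
      have e4 : (p - 1) * x - y = s * ((p - 2 + p * t) / 2) := by
        rw [ex, ey]
        ring
      rw [e4, ← hs, e3]
      ring
    have e5 : x ^ p = s ^ p * ((1 + t) / 2) ^ p := by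
      rw [← Real.mul_rpow hs0.le (by linarith), ← ex]
    have e6 : y ^ p = s ^ p * ((1 - t) / 2) ^ p := by
      rw [← Real.mul_rpow hs0.le (by linarith), ← ey]
    rw [eW, e5, e6]
    have h9 := mul_le_mul_of_nonneg_left key (Real.rpow_nonneg hs0.le p)
    nlinarith
  · -- the Burkholder case
    have hW : Wl lam p x y = ((p - 1) * x - y) * (x + y) ^ (p - 1) := by
      unfold Wl
      rw [max_eq_right (by linarith), Real.zero_rpow hp0.ne']
      ring
    rw [hW]
    rcases hx.lt_or_eq with hx0 | hx0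
    · set t : ℝ := y / x with ht
      have ht0 : 0 ≤ t := div_nonneg hy hx
      have hyt : y = x * t := by
        rw [ht]
        field_simp
      have h1 := BB_nonneg hp ht0
      unfold BB at h1
      have e1 : x + y = x * (1 + t) := by rw [hyt]; ring
      have e3 : x ^ p = x ^ (p - 1) * x := by
        rw [← Real.rpow_add_one hx0.ne']
        congr 1
        ring
      have e4 : y ^ p = x ^ p * t ^ p := by
        rw [hyt, Real.mul_rpow hx ht0]
      have e5 : ((p - 1) * x - y) * (x + y) ^ (p - 1)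
          = x ^ p * ((p - 1 - t) * (1 + t) ^ (p - 1)) := by
        rw [e1, Real.mul_rpow hx (by linarith), hyt, e3]
        ring
      rw [e5, e4]
      have h2 := mul_nonneg (Real.rpow_nonneg hx p) h1
      nlinarith
    · rw [← hx0, Real.zero_rpow hp0.ne', zero_add]
      have e1 : ((p - 1) * 0 - y) * y ^ (p - 1) = -y ^ p := by
        rcases hy.lt_or_eq with h | h
        · have e3 : y ^ p = y ^ (p - 1) * y := by
            rw [← Real.rpow_add_one h.ne']
            congr 1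
            ring
          rw [e3]
          ring
        · rw [← h, Real.zero_rpow (by linarith), Real.zero_rpow (by linarith)]
          ring
      rw [e1]
      have h1 := one_le_cp hp
      have h2 : 0 ≤ y ^ p := Real.rpow_nonneg hy _
      nlinarith

end Pool.Agent.W802.IW2
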